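import Pool.Agent.H98.WovenFinal

set_option autoImplicit false

/-!
Classification of the connected woven graphs: a connected graph with at least one edge which
is `k`-woven for some `k` is a star with at least two edges or a suitable caterpillar. This is
the negated form of Q1, so the answer to Q1 is no.
-/

namespace Pool.Agent.Results.MP_85af01_co.Classification

open Pool.Agent.H98.Woven

/-- Every connected woven graph with at least one edge is a star `K_{1,s}` with `s ≥ 2` or a
suitable caterpillar. -/
theorem result (V : Type) [Finite V] (G : SimpleGraph V) (hconn : G.Connected)
    (hedge : ∃ a b, G.Adj a b) (hwoven : ∃ k, KWoven k G) :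
    (∃ s, 2 ≤ s ∧ Nonempty (G ≃g completeBipartiteGraph (Fin 1) (Fin s))) ∨
      ∃ s, SuitableCaterpillar s G :=
  classification hconn hedge hwoven

end Pool.Agent.Results.MP_85af01_co.Classification
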